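import Pool.Agent.Lib.MP_954e53_ag.H89Cone
import Pool.Agent.Lib.MP_954e53_ag.CexBridge

namespace Pool.Agent.Variants.MP_954e53_ag.CounterexampleKempf

open Pool.Agent.Lib.MP_954e53_ag

universe u

/-- Over every algebraically closed field of characteristic zero there is a Gorenstein section ring
with rational singularities (normal, Cohen-Macaulay, canonical forms extend: the criterion of Kempf;
also a finite quotient of the cone over a smooth Fano complete intersection) without forms of degree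
one, whose ideals `I_N` have core different from the graded core for all large `N`. -/
theorem result (k : Type u) [Field k] [IsAlgClosed k] [CharZero k] :
    ∃ (S : Type u) (_ : CommRing S) (_ : IsDomain S) (_ : Algebra k S)
    (𝒜 : ℕ → Submodule k S) (_ : GradedAlgebra 𝒜) (d r : ℕ),
    SectionRing 𝒜 ∧ (∀ y ∈ 𝒜 0, ∃ a : k, algebraMap k S a = y) ∧ 2 ≤ d ∧ 1 ≤ r ∧
      GorensteinOfIndex 𝒜 d r ∧ IsIntegrallyClosed S ∧ CanonicalFormsExtend k S d ∧
      ConeQuotient k S ∧ (∀ y ∈ 𝒜 1, y = 0) ∧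
      ∃ N₀, ∀ N, N₀ ≤ N → core (truncIdeal 𝒜 N) ≠ gradedCore 𝒜 (truncIdeal 𝒜 N) := by
  obtain ⟨S, _, _, _, 𝒜, _, d, r, h1, h2, h3, h4, h5, h6, h7, h8⟩ := Gen.counterexample_cone k
  exact ⟨S, _, _, _, 𝒜, _, d, r, h1.sectionRing, h2, h3, h4, h5, h6, h7.canonical, h8⟩

end Pool.Agent.Variants.MP_954e53_ag.CounterexampleKempf
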